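import Pool.Agent.H973.CT.Final
import Pool.Agent.H973.CT.Split
import Pool.Agent.H973.CT.Priv
import Pool.Agent.H973.CT.MainU
import Pool.Agent.H973.CT.Pairs
import Pool.Agent.H973.CT.Walk
import Pool.Agent.H973.CT.Degen
import Pool.Agent.H973.CT.Cluster
import Pool.Agent.H973.CT.MainA
import Pool.Agent.H973.CT.GoodA
import Pool.Agent.H973.CT.ExcA
import Pool.Agent.H973.CT.MatA
import Pool.Agent.H973.CT.SideA
import Pool.Agent.H973.CT.UpA
import Pool.Agent.H973.CT.Plant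
import Pool.Agent.H973.CT.Det2
import Pool.Agent.H973.CT.Ind
import Pool.Agent.H973.CT.BSeven
import Pool.Agent.H973.CT.GLow
import Pool.Agent.H973.CT.GFew
import Pool.Agent.H973.CT.GB4
import Pool.Agent.H973.CT.GB5
import Pool.Agent.H973.CT.GB6
import Pool.Agent.H973.CT.GB7
import Pool.Agent.H973.CT.LowB

set_option autoImplicit false

/-! The chromatic threshold of the odd cycles of length `2k+1 ≥ 7` in `G(n,p)` for all functions `p`
with `n^(-(2k-3)/(2k-2)) ≪ p ≪ n^(-1/2)`. -/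

namespace Pool.Agent.Results.MP_1bacea_co.LongOddCycles

open Filter Topology Asymptotics

open Classical in
/-- the probability that the random graph `G(n,p)` has the property `A` -/
noncomputable def gnp (n : ℕ) (p : ℝ) (A : SimpleGraph (Fin n) → Prop) : ℝ :=
  ∑ Γ : SimpleGraph (Fin n),
    if A Γ then p ^ Γ.edgeSet.ncard * (1 - p) ^ (n.choose 2 - Γ.edgeSet.ncard) else 0

/-- the chromatic threshold `δ_χ(H,p)`: the infimum of all `d > 0` such that for some `C`, with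
probability tending to `1`, every spanning subgraph `G` of `G(n,p)` without a copy of `H` and with all
degrees at least `d p n` is `C`-colourable -/
noncomputable def chromThreshold {V : Type} (H : SimpleGraph V) (p : ℕ → ℝ) : ℝ :=
  sInf {d : ℝ | 0 < d ∧ ∃ C : ℕ, 0 < C ∧ Tendsto (fun n : ℕ => gnp n (p n) (fun Γ =>
    ∀ G : SimpleGraph (Fin n), G ≤ Γ → ¬ H.IsContained G →
      (∀ v, d * p n * n ≤ ((G.neighborSet v).ncard : ℝ)) → G.Colorable C)) atTop (𝓝 1)}

/-- Let `k ≥ 3`, `θ = (2k-3)/(2k-2)` and `n^(-θ) ≪ p ≪ n^(-1/2)`. If `p ≥ n^(-θ+η)` for some `η > 0` and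
all large `n` then `δ_χ(C_{2k+1}, p) = 0`; otherwise `δ_χ(C_{2k+1}, p) ≥ 1/2`. -/
theorem result (k : ℕ) (hk : 3 ≤ k) (p : ℕ → ℝ) (hp : ∀ n, 0 ≤ p n ∧ p n ≤ 1)
    (hlow : (fun n : ℕ => (n : ℝ) ^ (-((2 * (k : ℝ) - 3) / (2 * k - 2)))) =o[atTop] p)
    (hup : p =o[atTop] (fun n : ℕ => (n : ℝ) ^ (-(1 / 2) : ℝ))) :
    ((∃ η : ℝ, 0 < η ∧ ∀ᶠ n : ℕ in atTop,
        (n : ℝ) ^ (-((2 * (k : ℝ) - 3) / (2 * k - 2)) + η) ≤ p n) →
      chromThreshold (SimpleGraph.cycleGraph (2 * k + 1)) p = 0) ∧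
    ((¬ ∃ η : ℝ, 0 < η ∧ ∀ᶠ n : ℕ in atTop,
        (n : ℝ) ^ (-((2 * (k : ℝ) - 3) / (2 * k - 2)) + η) ≤ p n) →
      1 / 2 ≤ chromThreshold (SimpleGraph.cycleGraph (2 * k + 1)) p) := by
  have hU : Pool.Agent.H973.CT.S_UPA := by
    open Pool.Agent.H973.CT in
    exact upa split (gooda priv pairs degen (maina main_union)) (sidea cluster exca (mata walk))
  have hL : Pool.Agent.H973.CT.S_LOWB := by
    open Pool.Agent.H973.CT in
    exact lowb plant det2 glow gfew (gb4 ind) (gb5 ind) (gb6 ind) (gb7 bseven)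
  exact Pool.Agent.H973.CT.main_thm hU hL k hk p hp hlow hup

end Pool.Agent.Results.MP_1bacea_co.LongOddCycles
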